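import Pool.Agent.Y45.MON.StmS

/-!
# A variety and a word in three letters which is trivial only on commuting triples
-/

set_option autoImplicit false

namespace Pool.Agent.K1H18.OR

open Pool.Agent.Y45.MON

section vals
variable {G H : Type} [Group G] [Group H]

theorem vv_comm {r : ℕ} (w : WP r) (j : Fin r) (a b : G) (h : a * b = b * a) :
    vv w j a b = a ^ (w.δ j) * a⁻¹ := by
  have hc : Commute a b := h
  have hP : Commute a (P0 w.M1 a b) := by
    unfold P0
    exact (((Commute.refl a).mul_right hc).mul_right ((Commute.refl a).pow_right _)).mul_right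
      hc.inv_right
  have hX : X1 w.M1 w.m2 a b = 1 := by
    unfold X1
    rw [(hP.pow_right w.m2).eq]
    group
  unfold vv Wj
  rw [hX]
  simp only [one_pow, mul_one]
  rw [mul_assoc (a ^ w.δ j) b a⁻¹, (hc.inv_left.eq).symm]
  group

theorem vv1 {r : ℕ} (w : WP r) (j : Fin r) (hj : w.δ j = 1) (a b : G) (h : a * b = b * a) :
    vv w j a b = 1 := by
  rw [vv_comm w j a b h, hj]
  simp

theorem vv2 {r : ℕ} (w : WP r) (j : Fin r) (hj : w.δ j = 2) (a b : G) (h : a * b = b * a) :
    vv w j a b = a := by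
  rw [vv_comm w j a b h, hj]
  group

theorem map_vv {r : ℕ} (w : WP r) (j : Fin r) (f : G →* H) (a b : G) :
    f (vv w j a b) = vv w j (f a) (f b) := by
  simp [vv, Wj, X1, P0]

end vals

/-- the exponents of the first letters: operations `0, 1, 6` vanish on commuting pairs, the others
give the first entry -/
def dl : Fin 9 → ℕ := ![1, 1, 2, 2, 2, 2, 1, 2, 2]

/-- the orders -/
def eo (p q : ℕ) : Fin 9 → ℕ := ![p, q, p * q, p * q, p * q, p * q, p * q, p, q]

section words
variable (w : WP 9) {G H : Type} [Group G] [Group H]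

/-- first half of the relator -/
def t1 (a b c : G) : G := vv w 0 (vv w 2 a b) (vv w 3 c b)

/-- second half of the relator -/
def t2 (a b c : G) : G := vv w 1 (vv w 4 (a * b) c) (vv w 5 b c)

/-- the relator -/
def rel (a b c : G) : G := t1 w a b c * t2 w a b c

/-- the implication laws -/
def im (k : Fin 9) (e : ℕ) (s a b c : G) : G := (vv w k (vv w k s (t1 w a b c)) (t2 w a b c)) ^ e

/-- the values of the laws -/
def LW (p q : ℕ) (a b c : G) : List G :=
  [a ^ (p * q), (vv w 0 a b) ^ p, (vv w 1 a b) ^ q,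
    (vv w 7 (a * b * a⁻¹ * b⁻¹) (vv w 6 a b)) ^ p,
    (vv w 8 (a * b * a⁻¹ * b⁻¹) (vv w 6 a b)) ^ q,
    im w 7 p (vv w 6 a b) a b c, im w 8 q (vv w 6 a b) a b c,
    im w 7 p (vv w 6 b c) a b c, im w 8 q (vv w 6 b c) a b c,
    im w 7 p (vv w 6 a c) a b c, im w 8 q (vv w 6 a c) a b c]

theorem map_LW (p q : ℕ) (f : G →* H) (a b c : G) :
    (LW w p q a b c).map f = LW w p q (f a) (f b) (f c) := by
  simp [LW, im, t1, t2, map_vv]

theorem map_rel (f : G →* H) (a b c : G) : f (rel w a b c) = rel w (f a) (f b) (f c) := by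
  simp [rel, t1, t2, map_vv]

/-- the group satisfies the laws -/
def Sat (p q : ℕ) (G : Type) [Group G] : Prop := ∀ a b c : G, ∀ x ∈ LW w p q a b c, x = 1

theorem eq_one_of_pow {p q : ℕ} (hpq : Nat.Coprime p q) (x : G) (h1 : x ^ p = 1)
    (h2 : x ^ q = 1) : x = 1 := by
  have h := Nat.dvd_gcd (orderOf_dvd_of_pow_eq_one h1) (orderOf_dvd_of_pow_eq_one h2)
  rw [hpq] at h
  exact orderOf_eq_one_iff.1 (Nat.dvd_one.1 h)

/-- **the laws and the relator imply commutativity** -/
theorem force {p q : ℕ} (hpq : Nat.Coprime p q) (hd : w.δ = dl) (hS : Sat w p q G) (a b c : G)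
    (h : rel w a b c = 1) : a * b = b * a ∧ b * c = c * b ∧ a * c = c * a := by
  have h7 : w.δ 7 = 2 := by rw [hd]; rfl
  have h8 : w.δ 8 = 2 := by rw [hd]; rfl
  have e1 : t1 w a b c ^ p = 1 :=
    hS (vv w 2 a b) (vv w 3 c b) 1 _ (by simp [LW, t1])
  have e2 : t2 w a b c ^ q = 1 :=
    hS (vv w 4 (a * b) c) (vv w 5 b c) 1 _ (by simp [LW, t2])
  have e3 : t1 w a b c = (t2 w a b c)⁻¹ := eq_inv_of_mul_eq_one_left h
  have z1 : t1 w a b c = 1 := by
    refine eq_one_of_pow hpq _ e1 ?_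
    rw [e3, inv_pow, e2, inv_one]
  have z2 : t2 w a b c = 1 := by
    rw [z1] at e3
    exact (inv_eq_one.1 e3.symm)
  have key : ∀ s : G, im w 7 p s a b c = s ^ p ∧ im w 8 q s a b c = s ^ q := by
    intro s
    unfold im
    rw [z1, z2, vv2 w 7 h7 s 1 (by simp), vv2 w 7 h7 s 1 (by simp), vv2 w 8 h8 s 1 (by simp),
      vv2 w 8 h8 s 1 (by simp)]
    exact ⟨rfl, rfl⟩
  have com : ∀ x y : G, vv w 6 x y = 1 → x * y = y * x := by
    intro x y hxy
    have f1 := hS x y 1 ((vv w 7 (x * y * x⁻¹ * y⁻¹) (vv w 6 x y)) ^ p) (by simp [LW])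
    have f2 := hS x y 1 ((vv w 8 (x * y * x⁻¹ * y⁻¹) (vv w 6 x y)) ^ q) (by simp [LW])
    rw [hxy, vv2 w 7 h7 _ 1 (by simp)] at f1
    rw [hxy, vv2 w 8 h8 _ 1 (by simp)] at f2
    have := eq_one_of_pow hpq _ f1 f2
    rw [mul_inv_eq_one, mul_inv_eq_iff_eq_mul] at this
    exact this
  have fin : ∀ s : G, im w 7 p s a b c = 1 → im w 8 q s a b c = 1 → s = 1 := by
    intro s f1 f2
    rw [(key s).1] at f1
    rw [(key s).2] at f2
    exact eq_one_of_pow hpq s f1 f2
  refine ⟨com a b (fin _ ?_ ?_), com b c (fin _ ?_ ?_), com a c (fin _ ?_ ?_)⟩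
  · exact hS a b c _ (by simp [LW])
  · exact hS a b c _ (by simp [LW])
  · exact hS a b c _ (by simp [LW])
  · exact hS a b c _ (by simp [LW])
  · exact hS a b c _ (by simp [LW])
  · exact hS a b c _ (by simp [LW])

end words

section mon
variable {w : WP 9} {p q : ℕ} {G : Type} [Group G] {col : G → Unit} {rk : G → ℕ}

variable (P : MonP w (p * q) (fun _ _ _ => ()) (fun j _ _ => eo p q j) G col rk)

include P

theorem ne_one (h1 : ∀ j, eo p q j ≠ 1) (j : Fin 9) (a b : G) (hab : a * b ≠ b * a) :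
    vv w j a b ≠ 1 := by
  intro h
  have := P.ord j a b hab
  rw [h, orderOf_one] at this
  exact h1 j this.symm

theorem comm_iff (h1 : ∀ j, eo p q j ≠ 1) (j : Fin 9) (a b : G) (h : vv w j a b = 1) :
    a * b = b * a := by
  by_contra hab
  exact ne_one P h1 j a b hab h

theorem not_comm (h1 : ∀ j, eo p q j ≠ 1) (i j : Fin 9) (hij : i ≠ j) (a b a' b' : G)
    (hab : a * b ≠ b * a) (hab' : a' * b' ≠ b' * a') :
    vv w i a b * vv w j a' b' ≠ vv w j a' b' * vv w i a b := by
  intro h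
  have := P.cmm i j a b a' b' 1 hab hab' (by
    rw [zpow_one]; exact ne_one P h1 i a b hab) (by rw [zpow_one]; exact h)
  exact hij this.1

theorem powers (j : Fin 9) (hj : w.δ j = 1) (a b : G) : vv w j a b ^ (eo p q j) = 1 := by
  by_cases hab : a * b = b * a
  · rw [vv1 w j hj a b hab, one_pow]
  · rw [← P.ord j a b hab, pow_orderOf_eq_one]

/-- the geometric lemma on two conditional operations -/
theorem two_E (h1 : ∀ j, eo p q j ≠ 1) (i j : Fin 9) (hij : i ≠ j) (hi : w.δ i = 2)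
    (hj : w.δ j = 2) (u v z : G)
    (h : vv w i u z * vv w j v z = vv w j v z * vv w i u z) :
    (u * z = z * u ∧ v * z = z * v ∧ u * v = v * u) ∨ u = 1 ∨ v = 1 := by
  by_cases huz : u * z = z * u
  · by_cases hvz : v * z = z * v
    · rw [vv2 w i hi u z huz, vv2 w j hj v z hvz] at h
      exact Or.inl ⟨huz, hvz, h⟩
    · by_cases hu : u = 1
      · exact Or.inr (Or.inl hu)
      · exfalso
        rw [vv2 w i hi u z huz] at h
        have hz : z ≠ 1 := by
          rintro rfl
          exact hvz (by simp)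
        have r1 := P.rkc u z hu hz huz
        have r2 := P.rkc u (vv w j v z) hu (ne_one P h1 j v z hvz) h
        have r3 := (P.rk1 j v z hvz).2
        omega
  · by_cases hvz : v * z = z * v
    · by_cases hv : v = 1
      · exact Or.inr (Or.inr hv)
      · exfalso
        rw [vv2 w j hj v z hvz] at h
        have hz : z ≠ 1 := by
          rintro rfl
          exact huz (by simp)
        have r1 := P.rkc v z hv hz hvz
        have r2 := P.rkc v (vv w i u z) hv (ne_one P h1 i u z huz) h.symm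
        have r3 := (P.rk1 i u z huz).2
        omega
    · exact absurd h (not_comm P h1 i j hij u z v z huz hvz)

/-- the relator vanishes only on commuting triples -/
theorem rel_comm (h1 : ∀ j, eo p q j ≠ 1) (hd : w.δ = dl) (a b c : G)
    (hr1 : t1 w a b c = 1) (hr2 : t2 w a b c = 1) :
    a * b = b * a ∧ b * c = c * b ∧ a * c = c * a := by
  have m1 := comm_iff P h1 0 _ _ hr1
  have m2 := comm_iff P h1 1 _ _ hr2
  have d2 : w.δ 2 = 2 := by rw [hd]; rfl
  have d3 : w.δ 3 = 2 := by rw [hd]; rfl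
  have d4 : w.δ 4 = 2 := by rw [hd]; rfl
  have d5 : w.δ 5 = 2 := by rw [hd]; rfl
  rcases two_E P h1 2 3 (by decide) d2 d3 a c b m1 with ⟨g1, g2, g3⟩ | rfl | rfl
  · exact ⟨g1, g2.symm, g3⟩
  · rcases two_E P h1 4 5 (by decide) d4 d5 (1 * b) b c m2 with ⟨g1, g2, g3⟩ | g | rfl
    · exact ⟨by simp, g2, by simp⟩
    · rw [one_mul] at g
      subst g
      simp
    · simp
  · rcases two_E P h1 4 5 (by decide) d4 d5 (a * b) b 1 m2 with ⟨g1, g2, g3⟩ | g | rfl
    · have : a * b = b * a := by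
        have := mul_right_cancel (b := b) (a := a * b) (c := b * a) (by rw [g3]; group)
        exact this
      exact ⟨this, by simp, by simp⟩
    · have hb : b = a⁻¹ := (inv_eq_of_mul_eq_one_right g).symm
      subst hb
      simp
    · simp

/-- an implication law -/
theorem imp_law (h1 : ∀ j, eo p q j ≠ 1) (hd : w.δ = dl) (k : Fin 9) (hk : w.δ k = 2)
    (a b c x y : G) (hxy : (a * b = b * a ∧ b * c = c * b ∧ a * c = c * a) → x * y = y * x) :
    im w k (eo p q k) (vv w 6 x y) a b c = 1 := by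
  have d0 : w.δ 0 = 1 := by rw [hd]; rfl
  have d1 : w.δ 1 = 1 := by rw [hd]; rfl
  have d6 : w.δ 6 = 1 := by rw [hd]; rfl
  have po : ∀ u v : G, (u * v = v * u → u ^ (eo p q k) = 1) → vv w k u v ^ (eo p q k) = 1 := by
    intro u v huv
    by_cases h : u * v = v * u
    · rw [vv2 w k hk u v h]
      exact huv h
    · rw [← P.ord k u v h, pow_orderOf_eq_one]
  unfold im
  by_cases hs : x * y = y * x
  · rw [vv1 w 6 d6 x y hs, vv2 w k hk 1 _ (by simp), vv2 w k hk 1 _ (by simp), one_pow]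
  · have hne : ¬ (t1 w a b c = 1 ∧ t2 w a b c = 1) := by
      rintro ⟨z1, z2⟩
      exact hs (hxy (rel_comm P h1 hd a b c z1 z2))
    by_cases z1 : t1 w a b c = 1
    · have z2 : t2 w a b c ≠ 1 := fun z2 => hne ⟨z1, z2⟩
      rw [z1, vv2 w k hk _ 1 (by simp)]
      refine po _ _ fun hc => ?_
      exfalso
      have hxy' : (vv w 4 (a * b) c) * (vv w 5 b c) ≠ (vv w 5 b c) * (vv w 4 (a * b) c) := by
        intro hh
        exact z2 (vv1 w 1 d1 _ _ hh)
      exact not_comm P h1 6 1 (by decide) x y _ _ hs hxy' hc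
    · have hxy' : (vv w 2 a b) * (vv w 3 c b) ≠ (vv w 3 c b) * (vv w 2 a b) := by
        intro hh
        exact z1 (vv1 w 0 d0 _ _ hh)
      refine po _ _ fun _ => ?_
      refine po _ _ fun hc => ?_
      exact absurd hc (not_comm P h1 6 0 (by decide) x y _ _ hs hxy')

/-- the monster satisfies the laws -/
theorem mon_sat (h1 : ∀ j, eo p q j ≠ 1) (hd : w.δ = dl) : Sat w p q G := by
  intro a b c x hx
  have d0 : w.δ 0 = 1 := by rw [hd]; rfl
  have d1 : w.δ 1 = 1 := by rw [hd]; rfl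
  have d6 : w.δ 6 = 1 := by rw [hd]; rfl
  have d7 : w.δ 7 = 2 := by rw [hd]; rfl
  have d8 : w.δ 8 = 2 := by rw [hd]; rfl
  have cl : ∀ k : Fin 9, w.δ k = 2 →
      (vv w k (a * b * a⁻¹ * b⁻¹) (vv w 6 a b)) ^ (eo p q k) = 1 := by
    intro k hk
    by_cases hab : a * b = b * a
    · have e : a * b * a⁻¹ * b⁻¹ = 1 := by rw [hab]; group
      rw [e, vv2 w k hk 1 _ (by simp), one_pow]
    · rw [← P.ord k _ _ (P.cmt 6 a b hab), pow_orderOf_eq_one]
  simp only [LW, List.mem_cons, List.not_mem_nil, or_false] at hx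
  rcases hx with rfl | rfl | rfl | rfl | rfl | rfl | rfl | rfl | rfl | rfl | rfl
  · exact P.exp a
  · exact powers P 0 d0 a b
  · exact powers P 1 d1 a b
  · exact cl 7 d7
  · exact cl 8 d8
  · exact imp_law P h1 hd 7 d7 a b c a b fun h => h.1
  · exact imp_law P h1 hd 8 d8 a b c a b fun h => h.1
  · exact imp_law P h1 hd 7 d7 a b c b c fun h => h.2.1
  · exact imp_law P h1 hd 8 d8 a b c b c fun h => h.2.1
  · exact imp_law P h1 hd 7 d7 a b c a c fun h => h.2.2
  · exact imp_law P h1 hd 8 d8 a b c a c fun h => h.2.2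

/-- the monster is infinite -/
theorem mon_inf (h1 : ∀ j, eo p q j ≠ 1) : Infinite G := by
  obtain ⟨x, y, -, hxy⟩ := P.gen
  have step : ∀ n : ℕ, ∃ a b : G, a * b ≠ b * a ∧ n ≤ rk a := by
    intro n
    induction n with
    | zero => exact ⟨x, y, hxy, Nat.zero_le _⟩
    | succ n ih =>
      obtain ⟨a, b, hab, hn⟩ := ih
      have r := (P.rk1 0 a b hab).1
      refine ⟨vv w 0 a b, a, ?_, by omega⟩
      intro hc
      have ha : a ≠ 1 := by
        rintro rfl
        exact hab (by simp)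
      have := P.rkc _ _ (ne_one P h1 0 a b hab) ha hc
      omega
  by_contra hG
  rw [not_infinite_iff_finite] at hG
  obtain ⟨m, hm⟩ := (Set.finite_range rk).bddAbove
  obtain ⟨a, b, -, hn⟩ := step (m + 1)
  have := hm ⟨a, rfl⟩
  omega

end mon

end Pool.Agent.K1H18.OR
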