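import Mathlib

/-!
# Pairing the second homology of a group with a 2-cocycle with trivial coefficients
-/

set_option autoImplicit false

namespace Pool.Agent.K1H18.OR

open Finsupp groupHomology

section pairs
variable {G A : Type} [AddCommGroup A]

/-- pairing a 2-chain with a function -/
noncomputable def pair (f : G → G → A) : (G × G →₀ ℤ) →+ A :=
  Finsupp.liftAddHom fun x => zmultiplesHom A (f x.1 x.2)

theorem pair_single (f : G → G → A) (x : G × G) (n : ℤ) :
    pair f (single x n) = n • f x.1 x.2 := by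
  simp [pair]

end pairs

variable (G : Type) [Group G]

/-- the 2-cycles -/
noncomputable def Z2 : AddSubgroup (G × G →₀ ℤ) := (cycles₂ (Rep.trivial ℤ G ℤ)).toAddSubgroup

/-- the first differential used -/
noncomputable def D21 : (G × G →₀ ℤ) →+ (G →₀ ℤ) :=
  (d₂₁ (Rep.trivial ℤ G ℤ)).hom.toAddMonoidHom

/-- the second differential used -/
noncomputable def D32 : (G × G × G →₀ ℤ) →+ (G × G →₀ ℤ) :=
  (d₃₂ (Rep.trivial ℤ G ℤ)).hom.toAddMonoidHom

theorem D21_single (a : G × G) (n : ℤ) :
    D21 G (single a n) = single a.2 n - single (a.1 * a.2) n + single a.1 n :=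
  d₂₁_single (A := Rep.trivial ℤ G ℤ) a n

theorem D32_single (g : G × G × G) (n : ℤ) :
    D32 G (single g n) = single (g.2.1, g.2.2) n - single (g.1 * g.2.1, g.2.2) n +
      single (g.1, g.2.1 * g.2.2) n - single (g.1, g.2.1) n :=
  d₃₂_single (A := Rep.trivial ℤ G ℤ) g n

theorem mem_Z2 (x : G × G →₀ ℤ) : x ∈ Z2 G ↔ D21 G x = 0 := Iff.rfl

/-- the projection from cycles to homology -/
noncomputable def prj : Z2 G →+ groupHomology (Rep.trivial ℤ G ℤ) 2 :=
  (H2π (Rep.trivial ℤ G ℤ)).hom.toAddMonoidHom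

theorem prj_surj : Function.Surjective (prj G) := by
  intro x
  induction x using H2_induction_on with
  | _ x => exact ⟨x, rfl⟩

theorem prj_eq_zero_iff (x : Z2 G) : prj G x = 0 ↔ ∃ y, D32 G y = x.1 :=
  H2π_eq_zero_iff (A := Rep.trivial ℤ G ℤ) x

variable {G} {A : Type} [AddCommGroup A]

theorem pair_D32 (f : G → G → A)
    (h : ∀ g h k, f g h + f (g * h) k = f h k + f g (h * k)) (y : G × G × G →₀ ℤ) :
    pair f (D32 G y) = 0 := by
  induction y using Finsupp.induction_linear with
  | zero => simp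
  | add a b ha hb => rw [map_add, map_add, ha, hb, add_zero]
  | single a n =>
    rw [D32_single, map_sub, map_add, map_sub, pair_single, pair_single, pair_single, pair_single]
    rw [← smul_sub, ← smul_add, ← smul_sub]
    have := h a.1 a.2.1 a.2.2
    have e : f a.2.1 a.2.2 - f (a.1 * a.2.1) a.2.2 + f a.1 (a.2.1 * a.2.2) - f a.1 a.2.1
        = (f a.2.1 a.2.2 + f a.1 (a.2.1 * a.2.2)) - (f a.1 a.2.1 + f (a.1 * a.2.1) a.2.2) := by
      abel
    rw [e, this, sub_self, smul_zero]

theorem fg_of_finite (M : Type) [AddCommGroup M] (i : Module ℤ M)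
    (h : @Module.Finite ℤ M _ _ i) : AddGroup.FG M := by
  have : i = AddCommGroup.toIntModule M := Subsingleton.elim _ _
  subst this
  exact (Module.Finite.iff_addGroup_fg).1 h

/-- the values of a cocycle on the cycles form a finitely generated group, if the second homology
is finitely generated -/
theorem fg_values (f : G → G → A) (h : ∀ g h k, f g h + f (g * h) k = f h k + f g (h * k))
    (hfin : Module.Finite ℤ (groupHomology (Rep.trivial ℤ G ℤ) 2)) :
    ((Z2 G).map (pair f)).FG := by
  have hker : (prj G).ker ≤ ((pair f).comp (Z2 G).subtype).ker := by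
    intro x hx
    rw [AddMonoidHom.mem_ker] at hx ⊢
    obtain ⟨y, hy⟩ := (prj_eq_zero_iff G x).1 hx
    change pair f x.1 = 0
    rw [← hy, pair_D32 f h]
  let φ : groupHomology (Rep.trivial ℤ G ℤ) 2 →+ A :=
    (prj G).liftOfSurjective (prj_surj G) ⟨(pair f).comp (Z2 G).subtype, hker⟩
  have hφ : ∀ x : Z2 G, φ (prj G x) = pair f x.1 := fun x =>
    AddMonoidHom.liftOfRightInverse_comp_apply _ _ _ ⟨(pair f).comp (Z2 G).subtype, hker⟩ x
  have hr : (Z2 G).map (pair f) = φ.range := by
    ext a
    constructor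
    · rintro ⟨x, hx, rfl⟩
      exact ⟨prj G ⟨x, hx⟩, hφ ⟨x, hx⟩⟩
    · rintro ⟨z, rfl⟩
      obtain ⟨x, rfl⟩ := prj_surj G z
      exact ⟨x.1, x.2, (hφ x).symm⟩
  have hfg : AddGroup.FG (groupHomology (Rep.trivial ℤ G ℤ) 2) := fg_of_finite _ _ hfin
  rw [hr]
  have h2 : (φ.range).FG := by
    rw [← AddGroup.fg_iff_addSubgroup_fg]
    exact AddGroup.fg_range φ
  exact h2

theorem comm_mem (s t : G) (hst : s * t = t * s) :
    (single (s, t) 1 - single (t, s) 1 : G × G →₀ ℤ) ∈ Z2 G := by
  rw [mem_Z2, map_sub, D21_single, D21_single]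
  simp only [hst]
  abel

/-- if the alternated cocycle has coefficients at infinitely many places then the second homology
is not finitely generated -/
theorem not_finite_of_coc {K R : Type} [AddCommGroup R] [Infinite K]
    (f : G → G → (K →₀ R)) (h : ∀ g h k, f g h + f (g * h) k = f h k + f g (h * k))
    (hk : ∀ k : K, ∃ s t : G, s * t = t * s ∧ (f s t - f t s) k ≠ 0) :
    ¬ Module.Finite ℤ (groupHomology (Rep.trivial ℤ G ℤ) 2) := by
  classical
  intro hfin
  obtain ⟨T, hT⟩ := fg_values f h hfin
  let U : Finset K := T.biUnion fun v => v.support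
  have hle : (Z2 G).map (pair f) ≤
      (Finsupp.supported R ℤ (U : Set K) : Submodule ℤ (K →₀ R)).toAddSubgroup := by
    rw [← hT, AddSubgroup.closure_le]
    intro v hv
    change v ∈ Finsupp.supported R ℤ (U : Set K)
    rw [Finsupp.mem_supported]
    intro k hk
    simp only [Finset.mem_coe] at hk hv ⊢
    exact Finset.mem_biUnion.2 ⟨v, hv, hk⟩
  obtain ⟨k, hkU⟩ := Infinite.exists_notMem_finset U
  obtain ⟨s, t, hst, hne⟩ := hk k
  have hm : (f s t - f t s) ∈ (Z2 G).map (pair f) := by
    refine ⟨_, comm_mem s t hst, ?_⟩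
    rw [map_sub, pair_single, pair_single, one_smul, one_smul]
  have := hle hm
  change _ ∈ Finsupp.supported R ℤ (U : Set K) at this
  rw [Finsupp.mem_supported] at this
  exact hkU (this (Finsupp.mem_support_iff.2 hne))

/-- the second homology of a finite group is finitely generated -/
theorem finite_of_finite [Finite G] :
    Module.Finite ℤ (groupHomology (Rep.trivial ℤ G ℤ) 2) := by
  have h1 : Module.Finite ℤ (G × G →₀ ℤ) := inferInstance
  have h2 : Module.Finite ℤ (cycles₂ (Rep.trivial ℤ G ℤ)) := by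
    have : IsNoetherian ℤ (G × G →₀ ℤ) := inferInstance
    exact Module.Finite.of_fg (IsNoetherian.noetherian (cycles₂ (Rep.trivial ℤ G ℤ)))
  refine Module.Finite.of_surjective (H2π (Rep.trivial ℤ G ℤ)).hom ?_
  intro x
  induction x using H2_induction_on with
  | _ x => exact ⟨x, rfl⟩

end Pool.Agent.K1H18.OR
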