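import Mathlib
import Pool.Agent.K1H18.OR.Pair

/-!
# The second homology of `F / R`, `R` the kernel of the Magnus homomorphism modulo `m`
-/

set_option autoImplicit false

namespace Pool.Agent.K1H18.OR

open Finsupp

section act
variable (k : Type) {G : Type} [CommRing k] [Group G]

/-- left translation -/
noncomputable def act (g : G) : (G →₀ k) →ₗ[k] (G →₀ k) := Finsupp.lmapDomain k k (g * ·)

@[simp] theorem act_single (g x : G) (r : k) : act k g (single x r) = single (g * x) r := by
  simp [act]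

theorem act_one (v : G →₀ k) : act k (1 : G) v = v := by
  induction v using Finsupp.induction_linear with
  | zero => simp
  | add a b ha hb => rw [map_add, ha, hb]
  | single x r => simp

theorem act_mul (g h : G) (v : G →₀ k) : act k (g * h) v = act k g (act k h v) := by
  induction v using Finsupp.induction_linear with
  | zero => simp
  | add a b ha hb => rw [map_add, map_add, map_add, ha, hb]
  | single x r => simp [mul_assoc]

/-- the invariant form -/
noncomputable def B : (G →₀ k) →ₗ[k] (G →₀ k) →ₗ[k] (G →₀ k) :=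
  Finsupp.linearCombination k (fun y : G => act k y⁻¹)

theorem B_single (y : G) (r : k) (v : G →₀ k) : B k (single y r) v = r • act k y⁻¹ v := by
  simp [B, Finsupp.linearCombination_single]

theorem B_act (g : G) (u v : G →₀ k) : B k (act k g u) (act k g v) = B k u v := by
  induction u using Finsupp.induction_linear with
  | zero => simp
  | add a b ha hb =>
    rw [map_add, map_add, map_add, LinearMap.add_apply, LinearMap.add_apply, ha, hb]
  | single x r =>
    rw [act_single, B_single, B_single, ← act_mul]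
    simp

end act

/-- pairs of vectors of the group algebra, with the group acting on the left -/
@[ext] structure Mg (k G : Type) [CommRing k] [Group G] where
  /-- first vector -/
  u : G →₀ k
  /-- second vector -/
  v : G →₀ k
  /-- group element -/
  g : G

namespace Mg

variable {k G : Type} [CommRing k] [Group G]

noncomputable instance : Mul (Mg k G) :=
  ⟨fun x y => ⟨x.u + act k x.g y.u, x.v + act k x.g y.v, x.g * y.g⟩⟩

noncomputable instance : One (Mg k G) := ⟨⟨0, 0, 1⟩⟩

noncomputable instance : Inv (Mg k G) := ⟨fun x => ⟨-act k x.g⁻¹ x.u, -act k x.g⁻¹ x.v, x.g⁻¹⟩⟩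

@[simp] theorem mul_u (x y : Mg k G) : (x * y).u = x.u + act k x.g y.u := rfl
@[simp] theorem mul_v (x y : Mg k G) : (x * y).v = x.v + act k x.g y.v := rfl
@[simp] theorem mul_g (x y : Mg k G) : (x * y).g = x.g * y.g := rfl
@[simp] theorem one_u : (1 : Mg k G).u = 0 := rfl
@[simp] theorem one_v : (1 : Mg k G).v = 0 := rfl
@[simp] theorem one_g : (1 : Mg k G).g = 1 := rfl
@[simp] theorem inv_u (x : Mg k G) : (x⁻¹).u = -act k x.g⁻¹ x.u := rfl
@[simp] theorem inv_v (x : Mg k G) : (x⁻¹).v = -act k x.g⁻¹ x.v := rfl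
@[simp] theorem inv_g (x : Mg k G) : (x⁻¹).g = x.g⁻¹ := rfl

noncomputable instance : Group (Mg k G) :=
  Group.ofLeftAxioms
    (by
      intro x y z
      ext1
      · simp [act_mul, add_assoc]
      · simp [act_mul, add_assoc]
      · simp [mul_assoc])
    (by
      intro x
      ext1
      · simp [act_one]
      · simp [act_one]
      · simp)
    (by
      intro x
      ext1
      · simp
      · simp
      · simp)

/-- the projection to the group -/
noncomputable def pr : Mg k G →* G where
  toFun := Mg.g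
  map_one' := rfl
  map_mul' _ _ := rfl

/-- the cocycle -/
noncomputable def coc (x y : Mg k G) : G →₀ k := B k x.u (act k x.g y.v)

theorem coc_rel (x y z : Mg k G) :
    coc x y + coc (x * y) z = coc y z + coc x (y * z) := by
  simp only [coc, mul_u, mul_v, mul_g, map_add, LinearMap.add_apply, act_mul, B_act]
  abel

/-- elements of the vector part commute -/
theorem comm_of (x y : Mg k G) (hx : x.g = 1) (hy : y.g = 1) : x * y = y * x := by
  ext1
  · simp [hx, hy, act_one, add_comm]
  · simp [hx, hy, act_one, add_comm]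
  · simp [hx, hy]

theorem pow_of (x : Mg k G) (hx : x.g = 1) (n : ℕ) :
    x ^ n = ⟨n • x.u, n • x.v, 1⟩ := by
  induction n with
  | zero => ext1 <;> simp
  | succ n ih =>
    rw [pow_succ, ih]
    ext1
    · simp [act_one, succ_nsmul]
    · simp [act_one, succ_nsmul]
    · simp [hx]

theorem pow_eq_one (m : ℕ) [CharP k m] (x : Mg k G) (hx : x.g = 1) : x ^ m = 1 := by
  rw [pow_of x hx]
  ext1
  · ext i
    simp
  · ext i
    simp
  · rfl

end Mg

open Mg

section theta
variable (k : Type) {G : Type} [CommRing k] [Group G] (a b : G)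

/-- the Magnus homomorphism -/
noncomputable def th : FreeGroup (Fin 2) →* Mg k G :=
  FreeGroup.lift ![⟨single 1 1, 0, a⟩, ⟨0, single 1 1, b⟩]

/-- the homomorphism to the group -/
def pi2 : FreeGroup (Fin 2) →* G := FreeGroup.lift ![a, b]

theorem th_g (x : FreeGroup (Fin 2)) : (th k a b x).g = pi2 a b x := by
  have : (Mg.pr (k := k)).comp (th k a b) = pi2 a b := by
    ext i
    fin_cases i
    · simp [th, pi2, Mg.pr]
    · simp [th, pi2, Mg.pr]
  exact DFunLike.congr_fun this x

theorem pow_a (n : ℕ) : (⟨single 1 1, 0, a⟩ : Mg k G) ^ n =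
    ⟨∑ i ∈ Finset.range n, single (a ^ i) 1, 0, a ^ n⟩ := by
  induction n with
  | zero => ext1 <;> simp
  | succ n ih =>
    rw [pow_succ, ih]
    ext1
    · simp [Finset.sum_range_succ]
    · simp
    · simp [pow_succ]

theorem pow_b (n : ℕ) : (⟨0, single 1 1, b⟩ : Mg k G) ^ n =
    ⟨0, ∑ i ∈ Finset.range n, single (b ^ i) 1, b ^ n⟩ := by
  induction n with
  | zero => ext1 <;> simp
  | succ n ih =>
    rw [pow_succ, ih]
    ext1
    · simp
    · simp [Finset.sum_range_succ]
    · simp [pow_succ]

theorem conj_b (f : Mg k G) (v : G →₀ k) :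
    f * (⟨0, v, 1⟩ : Mg k G) * f⁻¹ = ⟨0, act k f.g v, 1⟩ := by
  ext1
  · simp [← act_mul, act_one]
  · simp [← act_mul, act_one]
  · simp

theorem B_sum (g : G) (N : ℕ) :
    B k (∑ i ∈ Finset.range N, single (a ^ i) 1)
      (act k g (∑ i ∈ Finset.range N, single (b ^ i) 1)) =
    ∑ i ∈ Finset.range N, ∑ j ∈ Finset.range N, single ((a ^ i)⁻¹ * (g * b ^ j)) (1 : k) := by
  rw [map_sum, LinearMap.sum_apply]
  refine Finset.sum_congr rfl fun i _ => ?_
  rw [B_single, one_smul, map_sum, map_sum]
  refine Finset.sum_congr rfl fun j _ => ?_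
  rw [act_single, act_single]

theorem coef_ne (m N : ℕ) (hN : 0 < N) (hm : N * N < m) (g : G) :
    (∑ i ∈ Finset.range N, ∑ j ∈ Finset.range N,
      single ((a ^ i)⁻¹ * (g * b ^ j)) (1 : ZMod m)) g ≠ 0 := by
  classical
  have h : (∑ i ∈ Finset.range N, ∑ j ∈ Finset.range N,
      single ((a ^ i)⁻¹ * (g * b ^ j)) (1 : ZMod m)) g =
      ((((Finset.range N) ×ˢ (Finset.range N)).filter
        fun p : ℕ × ℕ => (a ^ p.1)⁻¹ * (g * b ^ p.2) = g).card : ZMod m) := by
    rw [← Finset.sum_product', Finsupp.finsetSum_apply, Finset.card_filter]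
    push_cast
    refine Finset.sum_congr rfl fun p _ => ?_
    rw [Finsupp.single_apply]
  rw [h]
  intro h0
  rw [ZMod.natCast_eq_zero_iff] at h0
  have h1 : 0 < (((Finset.range N) ×ˢ (Finset.range N)).filter
        fun p : ℕ × ℕ => (a ^ p.1)⁻¹ * (g * b ^ p.2) = g).card := by
    rw [Finset.card_pos]
    exact ⟨(0, 0), by simp [hN]⟩
  have h2 : (((Finset.range N) ×ˢ (Finset.range N)).filter
        fun p : ℕ × ℕ => (a ^ p.1)⁻¹ * (g * b ^ p.2) = g).card ≤ N * N := by
    refine (Finset.card_filter_le _ _).trans ?_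
    rw [Finset.card_product, Finset.card_range]
  have := Nat.le_of_dvd h1 h0
  omega

/-- **the second homology of `F / R` is not finitely generated** -/
theorem not_finite_quot (m N : ℕ) (hN : 0 < N) (hm : N * N < m) [Infinite G]
    (ha : a ^ N = 1) (hb : b ^ N = 1) (hs : Function.Surjective (pi2 a b))
    (R : Subgroup (FreeGroup (Fin 2))) [R.Normal] (hR : R ≤ (th (ZMod m) a b).ker)
    (hc : ∀ f : FreeGroup (Fin 2),
      ((FreeGroup.of 0) ^ N) * (f * (FreeGroup.of 1) ^ N * f⁻¹) *
        ((f * (FreeGroup.of 1) ^ N * f⁻¹) * ((FreeGroup.of 0) ^ N))⁻¹ ∈ R) :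
    ¬ Module.Finite ℤ (groupHomology (Rep.trivial ℤ (FreeGroup (Fin 2) ⧸ R) ℤ) 2) := by
  let t : FreeGroup (Fin 2) ⧸ R →* Mg (ZMod m) G := QuotientGroup.lift R (th (ZMod m) a b) hR
  have ht : ∀ x : FreeGroup (Fin 2), t (x : FreeGroup (Fin 2) ⧸ R) = th (ZMod m) a b x :=
    fun x => rfl
  refine not_finite_of_coc (K := G) (R := ZMod m) (fun x y => Mg.coc (t x) (t y)) ?_ ?_
  · intro x y z
    have := Mg.coc_rel (t x) (t y) (t z)
    simpa [map_mul] using this
  · intro g
    obtain ⟨f, hf⟩ := hs g
    refine ⟨(((FreeGroup.of 0) ^ N : FreeGroup (Fin 2)) : FreeGroup (Fin 2) ⧸ R),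
      ((f * (FreeGroup.of 1) ^ N * f⁻¹ : FreeGroup (Fin 2)) : FreeGroup (Fin 2) ⧸ R), ?_, ?_⟩
    · have h1 := (QuotientGroup.eq_one_iff _).2 (hc f)
      rw [QuotientGroup.mk_mul, QuotientGroup.mk_inv, mul_inv_eq_one] at h1
      exact h1
    · have e1 : th (ZMod m) a b ((FreeGroup.of 0) ^ N) =
          ⟨∑ i ∈ Finset.range N, single (a ^ i) 1, 0, 1⟩ := by
        rw [map_pow]
        have : th (ZMod m) a b (FreeGroup.of 0) = ⟨single 1 1, 0, a⟩ := by simp [th]
        rw [this, pow_a, ha]
      have e2 : th (ZMod m) a b (f * (FreeGroup.of 1) ^ N * f⁻¹) =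
          ⟨0, act (ZMod m) g (∑ i ∈ Finset.range N, single (b ^ i) 1), 1⟩ := by
        rw [map_mul, map_mul, map_pow, map_inv]
        have : th (ZMod m) a b (FreeGroup.of 1) = ⟨0, single 1 1, b⟩ := by simp [th]
        rw [this, pow_b, hb, conj_b, th_g, hf]
      simp only [ht, e1, e2, Mg.coc, act_one, map_zero, sub_zero]
      rw [B_sum]
      exact coef_ne a b m N hN hm g

end theta

end Pool.Agent.K1H18.OR
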