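import Mathlib

/-!
# Verbal subgroups: abelian groups of exponent `m` by a variety
-/

set_option autoImplicit false

namespace Pool.Agent.K1H18.OR

section comm
variable {Q : Type} [Group Q]

theorem closure_comm (T : Set Q) (hc : ∀ x ∈ T, ∀ y ∈ T, x * y = y * x) :
    ∀ x ∈ Subgroup.closure T, ∀ y ∈ Subgroup.closure T, x * y = y * x := by
  intro x hx y hy
  have h1 : ∀ z ∈ T, y ∈ Subgroup.closure T → z * y = y * z := by
    intro z hz _
    have : Subgroup.closure T ≤ Subgroup.centralizer {z} := by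
      rw [Subgroup.closure_le]
      intro t ht
      rw [SetLike.mem_coe, Subgroup.mem_centralizer_iff]
      intro s hs
      rw [Set.mem_singleton_iff] at hs
      subst hs
      exact hc _ hz _ ht
    exact (Subgroup.mem_centralizer_iff.1 (this hy)) z rfl
  have h2 : Subgroup.closure T ≤ Subgroup.centralizer {y} := by
    rw [Subgroup.closure_le]
    intro t ht
    rw [SetLike.mem_coe, Subgroup.mem_centralizer_iff]
    intro s hs
    rw [Set.mem_singleton_iff] at hs
    subst hs
    exact (h1 t ht hy).symm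
  exact ((Subgroup.mem_centralizer_iff.1 (h2 hx)) y rfl).symm

theorem closure_pow (T : Set Q) (hc : ∀ x ∈ T, ∀ y ∈ T, x * y = y * x) (n : ℕ)
    (hn : ∀ x ∈ T, x ^ n = 1) : ∀ x ∈ Subgroup.closure T, x ^ n = 1 := by
  intro x hx
  induction hx using Subgroup.closure_induction with
  | mem x hx => exact hn x hx
  | one => exact one_pow n
  | mul x y hx hy ihx ihy =>
    have : Commute x y := closure_comm T hc x hx y hy
    rw [this.mul_pow, ihx, ihy, one_mul]
  | inv x hx ih => rw [inv_pow, ih, inv_one]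

/-- a finitely generated subgroup generated by commuting elements of bounded order is finite -/
theorem closure_finite (T : Set Q) (hc : ∀ x ∈ T, ∀ y ∈ T, x * y = y * x) (n : ℕ) (h0 : 0 < n)
    (hn : ∀ x ∈ T, x ^ n = 1) (hfg : (Subgroup.closure T).FG) :
    Finite (Subgroup.closure T) := by
  let _ : CommGroup (Subgroup.closure T) :=
    { (inferInstance : Group (Subgroup.closure T)) with
      mul_comm := fun x y => Subtype.ext (closure_comm T hc x.1 x.2 y.1 y.2) }
  have : Group.FG (Subgroup.closure T) := (Group.fg_iff_subgroup_fg _).2 hfg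
  refine CommGroup.finite_of_fg_isMulTorsion (Subgroup.closure T) ?_
  intro x
  rw [isOfFinOrder_iff_pow_eq_one]
  exact ⟨n, h0, Subtype.ext (closure_pow T hc n hn x.1 x.2)⟩

end comm

/-- abelian groups of exponent `m` by a variety, finite quotients -/
theorem finite_quot {K : Type} [Group K] [Group.FG K] (X : Set K) (m : ℕ) (hm : 0 < m)
    (hX : ∀ g : K, ∀ x ∈ X, g * x * g⁻¹ ∈ X) (hfin : Finite (K ⧸ Subgroup.normalClosure X))
    (V : Subgroup K) [V.Normal] (h1 : ∀ x ∈ X, ∀ y ∈ X, x * y * (y * x)⁻¹ ∈ V)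
    (h2 : ∀ x ∈ X, x ^ m ∈ V) : Finite (K ⧸ V) := by
  have hcl : Subgroup.normalClosure X = Subgroup.closure X := by
    apply le_antisymm
    · have : (Subgroup.closure X).Normal := by
        constructor
        intro n hn g
        induction hn using Subgroup.closure_induction with
        | mem x hx => exact Subgroup.subset_closure (hX g x hx)
        | one => simp
        | mul x y _ _ ihx ihy =>
          have : g * (x * y) * g⁻¹ = (g * x * g⁻¹) * (g * y * g⁻¹) := by group
          rw [this]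
          exact mul_mem ihx ihy
        | inv x _ ih =>
          have : g * x⁻¹ * g⁻¹ = (g * x * g⁻¹)⁻¹ := by group
          rw [this]
          exact inv_mem ih
      exact Subgroup.normalClosure_le_normal Subgroup.subset_closure
    · exact Subgroup.closure_le_normalClosure
  have hfi : (Subgroup.normalClosure X).FiniteIndex := Subgroup.finiteIndex_of_finite_quotient
  have hSfg : (Subgroup.normalClosure X).FG := by
    have : Group.FG (Subgroup.normalClosure X) :=
      Subgroup.fg_of_index_ne_zero (Subgroup.normalClosure X)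
    exact (Group.fg_iff_subgroup_fg _).1 this
  let f := QuotientGroup.mk' V
  have hmap : (Subgroup.normalClosure X).map f = Subgroup.closure (f '' X) := by
    rw [hcl, MonoidHom.map_closure]
  have hfg2 : (Subgroup.closure (f '' X)).FG := by
    rw [← hmap]
    rw [Subgroup.fg_iff_submonoid_fg] at hSfg ⊢
    exact Submonoid.FG.map hSfg f
  have hfin2 : Finite (Subgroup.closure (f '' X)) := by
    refine closure_finite _ ?_ m hm ?_ hfg2
    · rintro _ ⟨x, hx, rfl⟩ _ ⟨y, hy, rfl⟩
      rw [← map_mul, ← map_mul]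
      have := (QuotientGroup.eq_one_iff _).2 (h1 x hx y hy)
      rw [QuotientGroup.mk_mul, QuotientGroup.mk_inv, mul_inv_eq_one] at this
      exact this
    · rintro _ ⟨x, hx, rfl⟩
      rw [← map_pow]
      exact (QuotientGroup.eq_one_iff _).2 (h2 x hx)
  have hidx : (Subgroup.closure (f '' X)).index ≠ 0 := by
    rw [← hmap]
    have := Subgroup.index_map_dvd (Subgroup.normalClosure X) (QuotientGroup.mk'_surjective V)
    exact fun h0 => hfi.index_ne_zero (Nat.eq_zero_of_zero_dvd (h0 ▸ this))
  have hcard := Subgroup.card_mul_index (Subgroup.closure (f '' X))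
  refine Nat.finite_of_card_ne_zero ?_
  rw [← hcard]
  exact mul_ne_zero (Nat.card_pos.ne') hidx

section words

/-- the values of the words in a group -/
def Val (H : Type) [Group H] (W : Set (FreeGroup ℕ)) : Set H :=
  {g | ∃ u ∈ W, ∃ f : ℕ → H, FreeGroup.lift f u = g}

theorem val_conj {H : Type} [Group H] (W : Set (FreeGroup ℕ)) (g x : H) (hx : x ∈ Val H W) :
    g * x * g⁻¹ ∈ Val H W := by
  obtain ⟨u, hu, f, rfl⟩ := hx
  refine ⟨u, hu, fun i => g * f i * g⁻¹, ?_⟩
  have : FreeGroup.lift (fun i => g * f i * g⁻¹) =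
      (MulAut.conj g).toMonoidHom.comp (FreeGroup.lift f) := by
    ext i
    simp
  rw [this]
  simp

theorem val_map {H K : Type} [Group H] [Group K] (W : Set (FreeGroup ℕ)) (φ : H →* K) (x : H)
    (hx : x ∈ Val H W) : φ x ∈ Val K W := by
  obtain ⟨u, hu, f, rfl⟩ := hx
  refine ⟨u, hu, fun i => φ (f i), ?_⟩
  have : FreeGroup.lift (fun i => φ (f i)) = φ.comp (FreeGroup.lift f) := by
    ext i
    simp
  rw [this]
  rfl

/-- the words of the product variety -/
def VW (W : Set (FreeGroup ℕ)) (m : ℕ) : Set (FreeGroup ℕ) :=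
  {z | ∃ u ∈ W, ∃ v ∈ W,
    z = FreeGroup.map (fun i => 2 * i) u * FreeGroup.map (fun i => 2 * i + 1) v *
      (FreeGroup.map (fun i => 2 * i + 1) v * FreeGroup.map (fun i => 2 * i) u)⁻¹} ∪
  {z | ∃ u ∈ W, z = u ^ m}

variable {H : Type} [Group H] (W : Set (FreeGroup ℕ)) (m : ℕ)

theorem vw_comm (x y : H) (hx : x ∈ Val H W) (hy : y ∈ Val H W) :
    x * y * (y * x)⁻¹ ∈ Val H (VW W m) := by
  obtain ⟨u, hu, f, rfl⟩ := hx
  obtain ⟨v, hv, g, rfl⟩ := hy
  refine ⟨_, Or.inl ⟨u, hu, v, hv, rfl⟩, fun n => if n % 2 = 0 then f (n / 2) else g (n / 2), ?_⟩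
  have e1 : (FreeGroup.lift fun n => if n % 2 = 0 then f (n / 2) else g (n / 2)).comp
      (FreeGroup.map (fun i => 2 * i)) = FreeGroup.lift f := by
    ext i
    have h1 : (2 * i) % 2 = 0 := by omega
    have h2 : (2 * i) / 2 = i := by omega
    simp [h2]
  have e2 : (FreeGroup.lift fun n => if n % 2 = 0 then f (n / 2) else g (n / 2)).comp
      (FreeGroup.map (fun i => 2 * i + 1)) = FreeGroup.lift g := by
    ext i
    have h1 : (2 * i + 1) % 2 = 1 := by omega
    have h2 : (2 * i + 1) / 2 = i := by omega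
    simp [h1, h2]
  have e1' := fun x => DFunLike.congr_fun e1 x
  have e2' := fun x => DFunLike.congr_fun e2 x
  simp only [MonoidHom.comp_apply] at e1' e2'
  rw [map_mul, map_mul, map_inv, map_mul, e1', e2']

theorem vw_pow (x : H) (hx : x ∈ Val H W) : x ^ m ∈ Val H (VW W m) := by
  obtain ⟨u, hu, f, rfl⟩ := hx
  exact ⟨_, Or.inr ⟨u, hu, rfl⟩, f, by rw [map_pow]⟩

theorem vw_cases (z : H) (hz : z ∈ Val H (VW W m)) :
    (∃ x ∈ Val H W, ∃ y ∈ Val H W, z = x * y * (y * x)⁻¹) ∨ ∃ x ∈ Val H W, z = x ^ m := by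
  obtain ⟨t, ht, f, rfl⟩ := hz
  rcases ht with ⟨u, hu, v, hv, rfl⟩ | ⟨u, hu, rfl⟩
  · refine Or.inl ⟨FreeGroup.lift f (FreeGroup.map (fun i => 2 * i) u), ⟨u, hu, fun i => f (2 * i), ?_⟩,
      FreeGroup.lift f (FreeGroup.map (fun i => 2 * i + 1) v), ⟨v, hv, fun i => f (2 * i + 1), ?_⟩, ?_⟩
    · have : FreeGroup.lift (fun i => f (2 * i)) =
          (FreeGroup.lift f).comp (FreeGroup.map (fun i => 2 * i)) := by
        ext i
        simp
      rw [this]
      rfl
    · have : FreeGroup.lift (fun i => f (2 * i + 1)) =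
          (FreeGroup.lift f).comp (FreeGroup.map (fun i => 2 * i + 1)) := by
        ext i
        simp
      rw [this]
      rfl
    · simp only [map_mul, map_inv]
  · exact Or.inr ⟨_, ⟨u, hu, f, rfl⟩, by rw [map_pow]⟩

end words

end Pool.Agent.K1H18.OR
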