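import Pool.Agent.K1H18.OR.Mon
import Pool.Agent.K1H18.OR.Laws
import Pool.Agent.K1H18.OR.Sd
import Pool.Agent.K1H18.OR.Verb

/-!
# Second homology of relatively free quotients of one-relator groups: the counterexample

`W` is a variety with an infinite 2-generator group such that every group in `W` generated by three
elements `a, b, c` with `rel a b c = 1` is commutative. The variety `V` consists of the groups which
are extensions of an abelian group of exponent `m` by a group in `W`.
-/

set_option autoImplicit false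

namespace Pool.Agent.K1H18.OR

open Pool.Agent.Y45.MON

/-- the words -/
def WW (w : WP 9) (p q : ℕ) : Set (FreeGroup ℕ) :=
  {u | u ∈ LW w p q (FreeGroup.of 0) (FreeGroup.of 1) (FreeGroup.of 2)}

section
variable (w : WP 9) (p q : ℕ)

theorem val_ww (H : Type) [Group H] (x : H) :
    x ∈ Val H (WW w p q) ↔ ∃ a b c : H, x ∈ LW w p q a b c := by
  constructor
  · rintro ⟨u, hu, f, rfl⟩
    refine ⟨f 0, f 1, f 2, ?_⟩
    have := List.mem_map_of_mem (f := FreeGroup.lift f) hu
    rw [map_LW] at this
    simpa using this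
  · rintro ⟨a, b, c, hx⟩
    let f : ℕ → H := fun n => if n = 0 then a else if n = 1 then b else c
    have h : (LW w p q (FreeGroup.of 0) (FreeGroup.of 1) (FreeGroup.of 2)).map
        (FreeGroup.lift f) = LW w p q a b c := by
      rw [map_LW]
      simp [f]
    rw [← h, List.mem_map] at hx
    obtain ⟨u, hu, rfl⟩ := hx
    exact ⟨u, hu, f, rfl⟩

/-- the one-relator group -/
abbrev KK : Type := PresentedGroup ({rel w (FreeGroup.of 0) (FreeGroup.of 1) (FreeGroup.of 2)} :
  Set (FreeGroup (Fin 3)))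

theorem kk_rel : rel w (PresentedGroup.of 0 : KK w) (PresentedGroup.of 1) (PresentedGroup.of 2)
    = 1 := by
  have h := map_rel w (PresentedGroup.mk ({rel w (FreeGroup.of 0) (FreeGroup.of 1)
    (FreeGroup.of 2)} : Set (FreeGroup (Fin 3)))) (FreeGroup.of 0) (FreeGroup.of 1)
    (FreeGroup.of 2)
  have h2 : (PresentedGroup.mk ({rel w (FreeGroup.of 0) (FreeGroup.of 1)
    (FreeGroup.of 2)} : Set (FreeGroup (Fin 3)))) (rel w (FreeGroup.of 0) (FreeGroup.of 1)
    (FreeGroup.of 2)) = 1 := by
    apply PresentedGroup.one_of_mem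
    exact Set.mem_singleton _
  rw [h2] at h
  exact h.symm

instance kk_fg : Group.FG (KK w) := by
  have : Group.FG (FreeGroup (Fin 3)) := inferInstance
  exact Group.fg_of_surjective (f := PresentedGroup.mk _)
    (QuotientGroup.mk'_surjective _)

/-- the quotient of the one-relator group by the laws `W` is finite -/
theorem finite_kw (hp : p.Prime) (hq : q.Prime) (hpq : p ≠ q) (hd : w.δ = dl) :
    Finite (KK w ⧸ Subgroup.normalClosure (Val (KK w) (WW w p q))) := by
  let S := Subgroup.normalClosure (Val (KK w) (WW w p q))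
  let f : KK w →* KK w ⧸ S := QuotientGroup.mk' S
  have hf : Function.Surjective f := QuotientGroup.mk'_surjective S
  have hS : Sat w p q (KK w ⧸ S) := by
    intro a b c x hx
    obtain ⟨a, rfl⟩ := hf a
    obtain ⟨b, rfl⟩ := hf b
    obtain ⟨c, rfl⟩ := hf c
    rw [← map_LW, List.mem_map] at hx
    obtain ⟨y, hy, rfl⟩ := hx
    refine (QuotientGroup.eq_one_iff _).2 (Subgroup.subset_normalClosure ?_)
    exact (val_ww w p q _ _).2 ⟨a, b, c, hy⟩
  have hr : rel w (f (PresentedGroup.of 0)) (f (PresentedGroup.of 1)) (f (PresentedGroup.of 2))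
      = 1 := by
    rw [← map_rel, kk_rel, map_one]
  have hc := force w ((Nat.coprime_primes hp hq).2 hpq) hd hS _ _ _ hr
  let T : Set (KK w ⧸ S) := Set.range fun i : Fin 3 => f (PresentedGroup.of i)
  have hT : Subgroup.closure T = ⊤ := by
    have h1 : T = f '' (Set.range (PresentedGroup.of : Fin 3 → KK w)) := by
      ext x
      simp [T]
    rw [h1, ← MonoidHom.map_closure, PresentedGroup.closure_range_of, ← MonoidHom.range_eq_map]
    exact MonoidHom.range_eq_top.2 hf
  have hfin : Finite (Subgroup.closure T) := by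
    refine closure_finite T ?_ (p * q) (Nat.mul_pos hp.pos hq.pos) ?_ ?_
    · rintro _ ⟨i, rfl⟩ _ ⟨j, rfl⟩
      fin_cases i <;> fin_cases j
      · rfl
      · exact hc.1
      · exact hc.2.2
      · exact hc.1.symm
      · rfl
      · exact hc.2.1
      · exact hc.2.2.symm
      · exact hc.2.1.symm
      · rfl
    · rintro _ ⟨i, rfl⟩
      exact hS (f (PresentedGroup.of i)) 1 1 _ (by simp [LW])
    · exact ⟨(Set.finite_range fun i : Fin 3 => f (PresentedGroup.of i)).toFinset, by
        rw [Set.Finite.coe_toFinset]⟩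
  rw [hT] at hfin
  exact Finite.of_equiv _ Subgroup.topEquiv.toEquiv

/-- the quotient of the one-relator group by the laws of the product variety is finite -/
theorem finite_kv (hp : p.Prime) (hq : q.Prime) (hpq : p ≠ q) (hd : w.δ = dl) (m : ℕ)
    (hm : 0 < m) :
    Finite (KK w ⧸ Subgroup.normalClosure (Val (KK w) (VW (WW w p q) m))) := by
  refine finite_quot (Val (KK w) (WW w p q)) m hm (fun g x hx => val_conj _ g x hx)
    (finite_kw w p q hp hq hpq hd) _ ?_ ?_
  · intro x hx y hy
    exact Subgroup.subset_normalClosure (vw_comm _ m x y hx hy)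
  · intro x hx
    exact Subgroup.subset_normalClosure (vw_pow _ m x hx)

end

/-- the second homology of the relatively free group of rank two is not finitely generated -/
theorem not_finite_free (w : WP 9) (p q : ℕ) (hp : p.Prime) (hq : q.Prime)
    (hd : w.δ = dl) {G : Type} [Group G] {col : G → Unit} {rk : G → ℕ}
    (P : MonP w (p * q) (fun _ _ _ => ()) (fun j _ _ => eo p q j) G col rk)
    (h1 : ∀ j, eo p q j ≠ 1) (m : ℕ) (hm : (p * q) * (p * q) < m) :
    ¬ Module.Finite ℤ (groupHomology (Rep.trivial ℤ (FreeGroup (Fin 2) ⧸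
      Subgroup.normalClosure (Val (FreeGroup (Fin 2)) (VW (WW w p q) m))) ℤ) 2) := by
  obtain ⟨a, b, hab, -⟩ := P.gen
  have hG : Infinite G := mon_inf P h1
  have hN : 0 < p * q := Nat.mul_pos hp.pos hq.pos
  have hsat := mon_sat P h1 hd
  have hker : ∀ x ∈ Val (FreeGroup (Fin 2)) (WW w p q), pi2 a b x = 1 := by
    intro x hx
    obtain ⟨c1, c2, c3, h⟩ := (val_ww w p q _ _).1 (val_map _ (pi2 a b) x hx)
    exact hsat c1 c2 c3 _ h
  have hths : ∀ x ∈ Val (FreeGroup (Fin 2)) (WW w p q), (th (ZMod m) a b x).g = 1 := by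
    intro x hx
    rw [th_g, hker x hx]
  refine not_finite_quot a b m (p * q) hN hm (P.exp a) (P.exp b) ?_ _ ?_ ?_
  · rw [← MonoidHom.range_eq_top, eq_top_iff, ← hab, Subgroup.closure_le]
    rintro g hg
    rcases hg with rfl | hg
    · exact ⟨FreeGroup.of 0, by simp [pi2]⟩
    · rw [Set.mem_singleton_iff] at hg
      subst hg
      exact ⟨FreeGroup.of 1, by simp [pi2]⟩
  · refine Subgroup.normalClosure_le_normal ?_
    intro z hz
    rw [SetLike.mem_coe, MonoidHom.mem_ker]
    rcases vw_cases _ m z hz with ⟨x, hx, y, hy, rfl⟩ | ⟨x, hx, rfl⟩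
    · rw [map_mul, map_inv, map_mul, map_mul, Mg.comm_of _ _ (hths x hx) (hths y hy),
        mul_inv_cancel]
    · rw [map_pow]
      exact Mg.pow_eq_one m _ (hths x hx)
  · intro f
    refine Subgroup.subset_normalClosure (vw_comm _ m _ _ ?_ ?_)
    · exact (val_ww w p q _ _).2 ⟨FreeGroup.of 0, 1, 1, by simp [LW]⟩
    · exact val_conj _ f _ ((val_ww w p q _ _).2 ⟨FreeGroup.of 1, 1, 1, by simp [LW]⟩)

/-- **the counterexample** -/
theorem main : ∃ (r : FreeGroup (Fin 3)) (W : Set (FreeGroup ℕ)),
    Module.Finite ℤ (groupHomology (Rep.trivial ℤ (PresentedGroup ({r} : Set (FreeGroup (Fin 3))) ⧸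
      Subgroup.normalClosure (Val (PresentedGroup ({r} : Set (FreeGroup (Fin 3)))) W)) ℤ) 2) ∧
    ¬ Module.Finite ℤ (groupHomology (Rep.trivial ℤ (FreeGroup (Fin 2) ⧸
      Subgroup.normalClosure (Val (FreeGroup (Fin 2)) W)) ℤ) 2) := by
  obtain ⟨w, n0, hd, hn0, hM⟩ := mon 9 dl (by decide)
  obtain ⟨p, hpn, hp⟩ := Nat.exists_infinite_primes n0
  obtain ⟨q, hqn, hq⟩ := Nat.exists_infinite_primes (p + 1)
  have hpq : p ≠ q := by omega
  have hN1 : p * q ≠ 1 := by
    intro h
    exact hp.one_lt.ne' (Nat.eq_one_of_mul_eq_one_right h)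
  have h1 : ∀ j, eo p q j ≠ 1 := by
    intro j
    fin_cases j
    · exact hp.one_lt.ne'
    · exact hq.one_lt.ne'
    · exact hN1
    · exact hN1
    · exact hN1
    · exact hN1
    · exact hN1
    · exact hp.one_lt.ne'
    · exact hq.one_lt.ne'
  have h2 : ∀ j, eo p q j ∣ p * q := by
    intro j
    fin_cases j
    · exact Dvd.intro _ rfl
    · exact Dvd.intro_left _ rfl
    · exact dvd_refl _
    · exact dvd_refl _
    · exact dvd_refl _
    · exact dvd_refl _
    · exact dvd_refl _
    · exact Dvd.intro _ rfl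
    · exact Dvd.intro_left _ rfl
  obtain ⟨G, _, col, rk, P⟩ := hM (p * q) hN1 (by
    intro r hr hrd
    rcases (hr.dvd_mul).1 hrd with h | h
    · rw [(Nat.prime_dvd_prime_iff_eq hr hp).1 h]
      exact hpn
    · rw [(Nat.prime_dvd_prime_iff_eq hr hq).1 h]
      omega) Unit inferInstance (fun _ _ _ => ()) (fun j _ _ => eo p q j)
    (fun j _ _ => ⟨h2 j, h1 j⟩)
  let m := (p * q) * (p * q) + 1
  have hm : (p * q) * (p * q) < m := Nat.lt_succ_self _
  refine ⟨rel w (FreeGroup.of 0) (FreeGroup.of 1) (FreeGroup.of 2), VW (WW w p q) m, ?_, ?_⟩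
  · have := finite_kv w p q hp hq hpq hd m (Nat.succ_pos _)
    exact finite_of_finite
  · exact not_finite_free w p q hp hq hd P h1 m hm

end Pool.Agent.K1H18.OR
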