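import Pool.Agent.Y45.MON.Geo
import Pool.Agent.Y45.MON.StmS
import Pool.Agent.Y811.MON.Frame
import Pool.Agent.Y914.MON.Xa
import Pool.Agent.Y571.MON.S4
import Pool.Agent.Y331.MON.Step5
import Pool.Agent.Y864.MON.LimA
import Pool.Agent.Y872.MON.LimB

/-!
# The limit theorem of the library (project MON), without the logical part of its main file
-/

set_option autoImplicit false

namespace Pool.Agent.K1H18.OR

open Pool.Agent.Y45.MON

theorem frame' : FrameStmt := Pool.Agent.Y811.MON.frame
theorem wr' : WrStmt := Pool.Agent.Y811.MON.wr frame' aRig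
theorem xa' : XaStmt := Pool.Agent.Y914.MON.xa frame' aBdd aRig2
theorem pb' : PbStmt := Pool.Agent.Y571.MON.t_PB aKey2 aNew
theorem step' : StepStmt :=
  Pool.Agent.Y331.MON.stepJob wr' xa' pb' aGr aQuo aStabTor aMix aOrd aConjN aConjO aConjT
theorem sq' : SqStmt := Pool.Agent.Y864.MON.limA step'
theorem lim' : LimStmt := Pool.Agent.Y872.MON.lim

/-- the limit theorem -/
theorem mon : MonStmt := mon_of sq' lim'

end Pool.Agent.K1H18.OR
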